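import Mathlib

/-!
# Comparison of coefficients of exponential sums
-/

set_option autoImplicit false

open Complex Filter Topology

namespace Pool.Agent.W32.CMW

theorem one_side {ι : Type*} (w z : ι → ℂ)
    (h1 : ∀ r : ℝ, Summable (fun i => ‖w i‖ * Real.exp (r * ‖z i‖))) :
    (∀ n : ℕ, Summable (fun i => z i ^ n * w i)) ∧
    ∀ s : ℂ, HasSum (fun n : ℕ => s ^ n * ((∑' i, z i ^ n * w i) / (n.factorial : ℂ)))
      (∑' i, w i * cexp (z i * s)) := by
  have hexp : ∀ x : ℝ, HasSum (fun n : ℕ => x ^ n / (n.factorial : ℝ)) (Real.exp x) := by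
    intro x
    rw [Real.exp_eq_exp_ℝ]
    exact NormedSpace.expSeries_div_hasSum_exp (𝔸 := ℝ) x
  have hexpc : ∀ x : ℂ, HasSum (fun n : ℕ => x ^ n / (n.factorial : ℂ)) (cexp x) := by
    intro x
    rw [Complex.exp_eq_exp_ℂ]
    exact NormedSpace.expSeries_div_hasSum_exp (𝔸 := ℂ) x
  have hprod : ∀ s : ℂ, Summable (fun p : ι × ℕ => w p.1 * ((z p.1 * s) ^ p.2 / (p.2.factorial : ℂ))) := by
    intro s
    refine Summable.of_norm ?_
    rw [summable_prod_of_nonneg (fun p => norm_nonneg _)]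
    have hn : ∀ i : ι, HasSum (fun n : ℕ => ‖w i * ((z i * s) ^ n / (n.factorial : ℂ))‖)
        (‖w i‖ * Real.exp (‖s‖ * ‖z i‖)) := by
      intro i
      have h := (hexp (‖s‖ * ‖z i‖)).mul_left ‖w i‖
      have e : (fun n : ℕ => ‖w i * ((z i * s) ^ n / (n.factorial : ℂ))‖) =
          fun n : ℕ => ‖w i‖ * ((‖s‖ * ‖z i‖) ^ n / (n.factorial : ℝ)) := by
        funext n
        rw [norm_mul, norm_div, norm_pow, norm_mul, Complex.norm_natCast, mul_comm ‖z i‖ ‖s‖]
      rw [e]
      exact h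
    refine ⟨fun i => (hn i).summable, ?_⟩
    exact (h1 ‖s‖).congr fun i => (hn i).tsum_eq.symm
  have hfib : ∀ (s : ℂ) (n : ℕ), Summable (fun i => w i * ((z i * s) ^ n / (n.factorial : ℂ))) := by
    intro s n
    have h := (hprod s).prod_symm
    exact h.prod_factor n
  refine ⟨fun n => ?_, fun s => ?_⟩
  · have h := (hfib 1 n).mul_left (n.factorial : ℂ)
    refine h.congr fun i => ?_
    have hf : (n.factorial : ℂ) ≠ 0 := by exact_mod_cast n.factorial_ne_zero
    rw [mul_one]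
    field_simp
  · have ha := (hprod s).hasSum
    have h2 : HasSum (fun i => w i * cexp (z i * s))
        (∑' p : ι × ℕ, w p.1 * ((z p.1 * s) ^ p.2 / (p.2.factorial : ℂ))) :=
      ha.prod_fiberwise fun i => (hexpc (z i * s)).mul_left (w i)
    have h3 : HasSum (fun n : ℕ => ∑' i, w i * ((z i * s) ^ n / (n.factorial : ℂ)))
        (∑' p : ι × ℕ, w p.1 * ((z p.1 * s) ^ p.2 / (p.2.factorial : ℂ))) := by
      have ha' : HasSum ((fun p : ι × ℕ => w p.1 * ((z p.1 * s) ^ p.2 / (p.2.factorial : ℂ))) ∘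
          (Equiv.prodComm ℕ ι)) (∑' p : ι × ℕ, w p.1 * ((z p.1 * s) ^ p.2 / (p.2.factorial : ℂ))) :=
        (Equiv.hasSum_iff (Equiv.prodComm ℕ ι)).2 ha
      exact ha'.prod_fiberwise fun n => (hfib s n).hasSum
    rw [h2.tsum_eq]
    have e : (fun n : ℕ => s ^ n * ((∑' i, z i ^ n * w i) / (n.factorial : ℂ))) =
        fun n : ℕ => ∑' i, w i * ((z i * s) ^ n / (n.factorial : ℂ)) := by
      funext n
      have e1 : (fun i => w i * ((z i * s) ^ n / (n.factorial : ℂ))) =
          fun i => (s ^ n / (n.factorial : ℂ)) * (z i ^ n * w i) := by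
        funext i
        rw [mul_pow]
        ring
      rw [e1, tsum_mul_left]
      ring
    rw [e]
    exact h3

theorem coefs {ι κ : Type*} (w z : ι → ℂ) (w' z' : κ → ℂ)
    (h1 : ∀ r : ℝ, Summable (fun i => ‖w i‖ * Real.exp (r * ‖z i‖)))
    (h2 : ∀ r : ℝ, Summable (fun j => ‖w' j‖ * Real.exp (r * ‖z' j‖)))
    (h3 : ∀ s : ℂ, ∑' i, w i * cexp (z i * s) = ∑' j, w' j * cexp (z' j * s)) (n : ℕ) :
    Summable (fun i => z i ^ n * w i) ∧ Summable (fun j => z' j ^ n * w' j) ∧
    ∑' i, z i ^ n * w i = ∑' j, z' j ^ n * w' j := by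
  obtain ⟨a1, a2⟩ := one_side w z h1
  obtain ⟨b1, b2⟩ := one_side w' z' h2
  refine ⟨a1 n, b1 n, ?_⟩
  have ha : HasFPowerSeriesAt (fun s : ℂ => ∑' i, w i * cexp (z i * s))
      (FormalMultilinearSeries.ofScalars ℂ
        (fun n : ℕ => (∑' i, z i ^ n * w i) / (n.factorial : ℂ))) 0 := by
    rw [hasFPowerSeriesAt_iff]
    refine Eventually.of_forall fun s => ?_
    simp only [FormalMultilinearSeries.coeff_ofScalars, zero_add, smul_eq_mul]
    exact a2 s
  have hb : HasFPowerSeriesAt (fun s : ℂ => ∑' i, w i * cexp (z i * s))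
      (FormalMultilinearSeries.ofScalars ℂ
        (fun n : ℕ => (∑' j, z' j ^ n * w' j) / (n.factorial : ℂ))) 0 := by
    rw [hasFPowerSeriesAt_iff]
    refine Eventually.of_forall fun s => ?_
    simp only [FormalMultilinearSeries.coeff_ofScalars, zero_add, smul_eq_mul]
    rw [h3 s]
    exact b2 s
  have h := ha.eq_formalMultilinearSeries hb
  have h4 := congrArg (fun p => FormalMultilinearSeries.coeff p n) h
  simp only [FormalMultilinearSeries.coeff_ofScalars] at h4
  have hf : (n.factorial : ℂ) ≠ 0 := by exact_mod_cast n.factorial_ne_zero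
  exact (div_left_inj' hf).1 h4

end Pool.Agent.W32.CMW
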