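import Mathlib
import Pool.Agent.W975.CM.Pois
import Pool.Agent.W32.CMW.Coef
import Pool.Agent.W192.CM.Parts2

/-!
# Poisson summation on the ring of integers with the weight `z ^ n`
-/

set_option autoImplicit false
set_option maxHeartbeats 1000000

open Complex Real

namespace Pool.Agent.W32.CMW

open Pool.Agent.W192.CM
open Pool.Agent.W975.CM (summ_one exists_e1 exists_tr shear norm_e)

/-- the shifted Gaussian with a frequency, complex shift -/
noncomputable def ga (s : ℝ) (d : ℂ) (f : ℝ) (y : ℤ) : ℂ :=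
  cexp (2 * π * I * (f * y)) * cexp (-(π * s * ((y : ℂ) + d) ^ 2))

/-- its transform -/
noncomputable def gb (s : ℝ) (d : ℂ) (f : ℝ) (l : ℤ) : ℂ :=
  cexp (2 * π * I * (((l : ℂ) - f) * d)) * cexp (-(π * ((l : ℂ) - f) ^ 2 / s))

theorem ga_eq (s : ℝ) (d : ℂ) (f : ℝ) (y : ℤ) :
    ga s d f y = cexp (-(π * s * (d : ℂ) ^ 2)) * jacobiTheta₂_term y (f + I * s * d) (I * s) := by
  unfold ga jacobiTheta₂_term
  rw [← Complex.exp_add, ← Complex.exp_add]
  congr 1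
  have hI : I ^ 2 = -1 := I_sq
  linear_combination (-(2 * π * y * s * d) - π * y ^ 2 * s : ℂ) * hI

theorem gb_eq {s : ℝ} (hs : 0 < s) (d : ℂ) (f : ℝ) (l : ℤ) :
    gb s d f l = cexp (-(π * (f : ℂ) ^ 2 / s) - 2 * π * I * (f * d)) *
      jacobiTheta₂_term l (d - I * (f / s)) (I / s) := by
  unfold gb jacobiTheta₂_term
  rw [← Complex.exp_add, ← Complex.exp_add]
  congr 1
  have hI : I ^ 2 = -1 := I_sq
  have hs' : (s : ℂ) ≠ 0 := by exact_mod_cast hs.ne'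
  field_simp
  linear_combination (2 * (l : ℂ) * f - (l : ℂ) ^ 2) * hI

theorem pois {s : ℝ} (hs : 0 < s) (d : ℂ) (f : ℝ) : ∃ S0 : ℂ,
    HasSum (gb s d f) S0 ∧ HasSum (ga s d f) (1 / (√s : ℂ) * S0) := by
  have hs' : (s : ℂ) ≠ 0 := by exact_mod_cast hs.ne'
  have hπ : (π : ℂ) ≠ 0 := by exact_mod_cast Real.pi_ne_zero
  have hI0 : I ≠ 0 := I_ne_zero
  have hI : I ^ 2 = -1 := I_sq
  have im1 : 0 < (I * (s : ℂ)).im := by simpa using hs
  have im2 : 0 < (I / (s : ℂ)).im := by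
    rw [div_ofReal_im, I_im]
    positivity
  have h0 := hasSum_jacobiTheta₂_term (f + I * s * d : ℂ) im1
  have k0 := hasSum_jacobiTheta₂_term (d - I * (f / s) : ℂ) im2
  obtain ⟨A, hA⟩ : ∃ A : ℂ, A = cexp (-(π * s * (d : ℂ) ^ 2)) := ⟨_, rfl⟩
  obtain ⟨B, hB⟩ : ∃ B : ℂ, B = cexp (-(π * (f : ℂ) ^ 2 / s) - 2 * π * I * (f * d)) := ⟨_, rfl⟩
  have F0 := jacobiTheta₂_functional_equation (f + I * s * d : ℂ) (I * (s : ℂ))
  have e1 : (-I * (I * (s : ℂ))) ^ (1 / 2 : ℂ) = (√s : ℂ) := by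
    have e : -I * (I * (s : ℂ)) = (s : ℂ) := by
      linear_combination (-(s : ℂ)) * hI
    rw [e, Real.sqrt_eq_rpow, Complex.ofReal_cpow hs.le]
    norm_num
  have e2 : (f + I * s * d : ℂ) / (I * s) = d - I * (f / s) := by
    field_simp
    linear_combination (f : ℂ) * hI
  have e3 : (-1 : ℂ) / (I * s) = I / s := by
    field_simp
    linear_combination (-1 : ℂ) * hI
  have e4 : A * cexp (-π * I * (f + I * s * d : ℂ) ^ 2 / (I * s)) = B := by
    rw [hA, hB, ← Complex.exp_add]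
    congr 1
    field_simp
    linear_combination (-(s : ℂ) ^ 2 * d ^ 2) * hI
  rw [e1, e2, e3] at F0
  refine ⟨B * jacobiTheta₂ (d - I * (f / s)) (I / s), ?_, ?_⟩
  · have e : gb s d f = fun l => B * jacobiTheta₂_term l (d - I * (f / s)) (I / s) := by
      funext l
      rw [gb_eq hs, hB]
    rw [e]
    exact k0.mul_left B
  · have e : ga s d f = fun y => A * jacobiTheta₂_term y (f + I * s * d) (I * s) := by
      funext y
      rw [ga_eq, hA]
    rw [e]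
    have h2 := h0.mul_left A
    have e5 : A * jacobiTheta₂ (f + I * s * d) (I * s) =
        1 / (√s : ℂ) * (B * jacobiTheta₂ (d - I * (f / s)) (I / s)) := by
      rw [F0, ← e4]
      ring
    rw [e5] at h2
    exact h2

/-- summable Gaussians in two variables with an exponential factor -/
theorem summ_dom (u v a b c r : ℝ) (hv : v ≠ 0) (hc : 0 < c) :
    Summable (fun p : ℤ × ℤ =>
      Real.exp (-(c * (((p.2 : ℝ) + p.1 * u + a) ^ 2 + ((p.1 : ℝ) * v + b) ^ 2))) *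
      Real.exp (r * √(((p.2 : ℝ) + p.1 * u + a) ^ 2 + ((p.1 : ℝ) * v + b) ^ 2))) := by
  obtain ⟨C0, hC0⟩ : ∃ C0, C0 = 2 + (2 * u ^ 2 + 1) / v ^ 2 := ⟨_, rfl⟩
  have hv2 : 0 < v ^ 2 := by positivity
  have hC0p : 0 < C0 := by rw [hC0]; positivity
  have h1 := summ_one (c := c / (4 * C0)) (by positivity)
  have h2 := h1.mul_of_nonneg h1 (fun _ => (Real.exp_pos _).le) (fun _ => (Real.exp_pos _).le)
  refine Summable.of_nonneg_of_le (fun p => by positivity) (fun p => ?_)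
    (h2.mul_left (Real.exp (r ^ 2 / (2 * c) + c * (a ^ 2 + b ^ 2) / 2)))
  generalize (p.2 : ℝ) = x
  generalize (p.1 : ℝ) = y
  obtain ⟨Qs, hQs⟩ : ∃ Qs, Qs = (x + y * u + a) ^ 2 + (y * v + b) ^ 2 := ⟨_, rfl⟩
  obtain ⟨Q, hQ⟩ : ∃ Q, Q = (x + y * u) ^ 2 + (y * v) ^ 2 := ⟨_, rfl⟩
  rw [← hQs]
  have hQs0 : 0 ≤ Qs := by rw [hQs]; positivity
  have e1 : r * √Qs ≤ r ^ 2 / (2 * c) + c * Qs / 2 := by
    have a1 : √Qs ^ 2 = Qs := Real.sq_sqrt hQs0
    have a2 : r ^ 2 / (2 * c) + c * Qs / 2 - r * √Qs = (r - c * √Qs) ^ 2 / (2 * c) := by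
      rw [← a1]
      rw [Real.sqrt_sq (Real.sqrt_nonneg _)]
      field_simp
      ring
    have a3 : 0 ≤ (r - c * √Qs) ^ 2 / (2 * c) := by positivity
    linarith
  have e2 : Q / 2 - (a ^ 2 + b ^ 2) ≤ Qs := by
    rw [hQ, hQs]
    nlinarith [sq_nonneg (x + y * u + 2 * a), sq_nonneg (y * v + 2 * b)]
  have e3 : x ^ 2 + y ^ 2 ≤ C0 * Q := by
    have b1 : (2 * u ^ 2 + 1) / v ^ 2 * (y * v) ^ 2 = (2 * u ^ 2 + 1) * y ^ 2 := by
      field_simp
    have b2 : 0 ≤ (2 * u ^ 2 + 1) / v ^ 2 * (x + y * u) ^ 2 := by positivity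
    have b3 : C0 * Q = 2 * (x + y * u) ^ 2 + 2 * (y * v) ^ 2 +
        (2 * u ^ 2 + 1) / v ^ 2 * (x + y * u) ^ 2 + (2 * u ^ 2 + 1) / v ^ 2 * (y * v) ^ 2 := by
      rw [hC0, hQ]
      ring
    rw [b3, b1]
    nlinarith [sq_nonneg (x + 2 * (y * u)), sq_nonneg (y * v)]
  have e4 : (x ^ 2 + y ^ 2) / C0 ≤ Q := by
    rw [div_le_iff₀ hC0p]
    linarith
  calc Real.exp (-(c * Qs)) * Real.exp (r * √Qs)
      = Real.exp (-(c * Qs) + r * √Qs) := (Real.exp_add _ _).symm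
    _ ≤ Real.exp (r ^ 2 / (2 * c) + c * (a ^ 2 + b ^ 2) / 2 + (-(c / (4 * C0) * y ^ 2) +
        -(c / (4 * C0) * x ^ 2))) := by
        apply Real.exp_le_exp.2
        have c1 : c / (4 * C0) * y ^ 2 + c / (4 * C0) * x ^ 2 = c / 4 * ((x ^ 2 + y ^ 2) / C0) := by
          field_simp
          ring
        have c2 : c / 4 * ((x ^ 2 + y ^ 2) / C0) ≤ c / 4 * Q :=
          mul_le_mul_of_nonneg_left e4 (by positivity)
        have c3 : c / 2 * (Q / 2 - (a ^ 2 + b ^ 2)) ≤ c / 2 * Qs :=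
          mul_le_mul_of_nonneg_left e2 (by positivity)
        nlinarith
    _ = _ := by
        rw [Real.exp_add, Real.exp_add (-(c / (4 * C0) * y ^ 2))]

/-- the Gaussian weight of the left side -/
noncomputable def wF (u v a b t : ℝ) (p : ℤ × ℤ) : ℂ :=
  ((Real.exp (-(2 * π * t * (((p.2 : ℝ) + p.1 * u + a) ^ 2 + ((p.1 : ℝ) * v + b) ^ 2) /
    (2 * v))) : ℝ) : ℂ)

/-- the exponents of the left side -/
noncomputable def zF (u v a b t : ℝ) (p : ℤ × ℤ) : ℂ :=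
  ((-(π * t / v) : ℝ) : ℂ) * ((((p.2 : ℝ) + p.1 * u + a : ℝ) : ℂ) + (((p.1 : ℝ) * v + b : ℝ) : ℂ) * I)

/-- the weights of the right side -/
noncomputable def wH (u v a b t : ℝ) (p : ℤ × ℤ) : ℂ :=
  (1 / (t : ℂ)) * (cexp (2 * π * I * (((a * (p.1 * v) + b * (p.2 - p.1 * u)) / v : ℝ) : ℂ)) *
   ((Real.exp (-(2 * π * (((p.2 : ℝ) - p.1 * u) ^ 2 + ((p.1 : ℝ) * v) ^ 2) /
    (2 * v * t))) : ℝ) : ℂ))

/-- the exponents of the right side -/
noncomputable def zH (u v : ℝ) (p : ℤ × ℤ) : ℂ :=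
  ((-(π / v) : ℝ) : ℂ) * ((((p.2 : ℝ) - p.1 * u : ℝ) : ℂ) - (((p.1 : ℝ) * v : ℝ) : ℂ) * I)

theorem hypF {u v a b t : ℝ} (hv : 0 < v) (ht : 0 < t) (r : ℝ) :
    Summable (fun p => ‖wF u v a b t p‖ * Real.exp (r * ‖zF u v a b t p‖)) := by
  have h := summ_dom u v a b (π * t / v) (r * (π * t / v)) hv.ne' (by positivity)
  refine h.congr fun p => ?_
  unfold wF zF
  have hp : 0 < π * t / v := by positivity
  rw [Complex.norm_real, Real.norm_eq_abs, Real.abs_exp, norm_mul, Complex.norm_add_mul_I,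
    Complex.norm_real, Real.norm_eq_abs, abs_neg, abs_of_pos hp]
  congr 2
  · field_simp
  · ring

theorem hypH {u v a b t : ℝ} (hv : 0 < v) (ht : 0 < t) (r : ℝ) :
    Summable (fun p => ‖wH u v a b t p‖ * Real.exp (r * ‖zH u v p‖)) := by
  have h := (summ_dom (-u) (-v) 0 0 (π / (v * t)) (r * (π / v)) (neg_ne_zero.2 hv.ne')
    (by positivity)).mul_left (1 / t)
  refine h.congr fun p => ?_
  unfold wH zH
  have hp : 0 < π / v := by positivity
  have e : ((((p.2 : ℝ) - p.1 * u : ℝ) : ℂ) - (((p.1 : ℝ) * v : ℝ) : ℂ) * I) =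
      ((((p.2 : ℝ) + p.1 * (-u) + 0 : ℝ) : ℂ) + (((p.1 : ℝ) * (-v) + 0 : ℝ) : ℂ) * I) := by
    push_cast
    ring
  have e2 : ‖(1 / (t : ℂ))‖ = 1 / t := by
    rw [norm_div, norm_one, Complex.norm_real, Real.norm_eq_abs, abs_of_pos ht]
  rw [norm_mul, norm_mul, norm_e, one_mul, Complex.norm_real, Real.norm_eq_abs, Real.abs_exp, e2,
    norm_mul, e, Complex.norm_add_mul_I, Complex.norm_real, Real.norm_eq_abs, abs_neg,
    abs_of_pos hp, mul_assoc (1 / t) (Real.exp _) (Real.exp _)]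
  congr 3
  · field_simp
    ring
  · ring

/-- the intermediate terms -/
noncomputable def Gx (u v a b t : ℝ) (σ : ℂ) (y k : ℤ) : ℂ :=
  ga (t * v) ((b + I * σ / 2) / v) 0 y *
    (1 / (√(t / v) : ℂ) * gb (t / v) (((y * u + a : ℝ) : ℂ) + σ / 2) 0 k)

theorem step1 {u v a b t : ℝ} (hv : 0 < v) (ht : 0 < t) (σ : ℂ) (y : ℤ) :
    ∑' x : ℤ, wF u v a b t (y, x) * cexp (zF u v a b t (y, x) * σ) =
      ∑' k : ℤ, Gx u v a b t σ y k := by
  have hs : 0 < t / v := by positivity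
  obtain ⟨S0, h1, h3⟩ := pois hs (((y * u + a : ℝ) : ℂ) + σ / 2) 0
  have hv' : (v : ℂ) ≠ 0 := by exact_mod_cast hv.ne'
  have hI : I ^ 2 = -1 := I_sq
  have hF : HasSum (fun x : ℤ => wF u v a b t (y, x) * cexp (zF u v a b t (y, x) * σ))
      (ga (t * v) ((b + I * σ / 2) / v) 0 y * (1 / (√(t / v) : ℂ) * S0)) := by
    have h5 := h3.mul_left (ga (t * v) ((b + I * σ / 2) / v) 0 y)
    have e : (fun x : ℤ => wF u v a b t (y, x) * cexp (zF u v a b t (y, x) * σ)) =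
        fun x : ℤ => ga (t * v) ((b + I * σ / 2) / v) 0 y *
          ga (t / v) (((y * u + a : ℝ) : ℂ) + σ / 2) 0 x := by
      funext x
      unfold wF zF ga
      simp only [Complex.ofReal_zero, zero_mul, mul_zero, Complex.exp_zero, one_mul]
      rw [Complex.ofReal_exp, ← Complex.exp_add, ← Complex.exp_add]
      congr 1
      push_cast
      field_simp
      linear_combination ((t : ℂ) * σ ^ 2) * hI
    rw [e]
    exact h5
  have hG : HasSum (fun k : ℤ => Gx u v a b t σ y k)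
      (ga (t * v) ((b + I * σ / 2) / v) 0 y * (1 / (√(t / v) : ℂ) * S0)) := by
    unfold Gx
    exact (h1.mul_left _).mul_left _
  rw [hF.tsum_eq, hG.tsum_eq]

theorem step2 {u v a b t : ℝ} (hv : 0 < v) (ht : 0 < t) (σ : ℂ) (k : ℤ) :
    ∑' y : ℤ, Gx u v a b t σ y k =
      ∑' l : ℤ, wH u v a b t (k, l) * cexp (zH u v (k, l) * σ) := by
  have hs : 0 < t * v := by positivity
  obtain ⟨S0, h1, h3⟩ := pois hs ((b + I * σ / 2) / v) (k * u)
  obtain ⟨E, hE⟩ : ∃ E : ℂ, E = cexp (2 * π * I * ((k : ℂ) * (a + σ / 2))) *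
    cexp (-(π * (k : ℂ) ^ 2 / (t / v : ℝ))) := ⟨_, rfl⟩
  have hv' : (v : ℂ) ≠ 0 := by exact_mod_cast hv.ne'
  have ht' : (t : ℂ) ≠ 0 := by exact_mod_cast ht.ne'
  have hI : I ^ 2 = -1 := I_sq
  obtain ⟨r1, hr1⟩ : ∃ r1 : ℂ, r1 = (√(t / v) : ℂ) := ⟨_, rfl⟩
  obtain ⟨r2, hr2⟩ : ∃ r2 : ℂ, r2 = (√(t * v) : ℂ) := ⟨_, rfl⟩
  have hr12 : r1 * r2 = t := by
    rw [hr1, hr2, ← Complex.ofReal_mul, ← Real.sqrt_mul (by positivity)]
    congr 1
    rw [show t / v * (t * v) = t ^ 2 by field_simp]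
    exact Real.sqrt_sq ht.le
  have hr10 : r1 ≠ 0 := left_ne_zero_of_mul (hr12 ▸ ht' : r1 * r2 ≠ 0)
  have hr20 : r2 ≠ 0 := right_ne_zero_of_mul (hr12 ▸ ht' : r1 * r2 ≠ 0)
  have hG : HasSum (fun y : ℤ => Gx u v a b t σ y k) (E * (1 / r1) * (1 / r2 * S0)) := by
    have h5 := h3.mul_left (E * (1 / r1))
    rw [← hr2] at h5
    have e : (fun y : ℤ => Gx u v a b t σ y k) = fun y : ℤ => E * (1 / r1) *
        ga (t * v) ((b + I * σ / 2) / v) (k * u) y := by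
      funext y
      unfold Gx ga gb
      rw [hE, ← hr1]
      have e1 : cexp (2 * π * I * (((k : ℂ) - (0 : ℝ)) * (((y * u + a : ℝ) : ℂ) + σ / 2))) =
          cexp (2 * π * I * ((k : ℂ) * (a + σ / 2))) * cexp (2 * π * I * (((k * u : ℝ) : ℂ) * y)) := by
        rw [← Complex.exp_add]
        congr 1
        push_cast
        ring
      rw [e1]
      simp only [Complex.ofReal_zero, zero_mul, mul_zero, Complex.exp_zero, one_mul, sub_zero]
      ring
    rw [e]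
    exact h5
  have hH : HasSum (fun l : ℤ => wH u v a b t (k, l) * cexp (zH u v (k, l) * σ))
      (E * (1 / r1) * (1 / r2 * S0)) := by
    have h5 := h1.mul_left (1 / (t : ℂ) * E)
    have e : (fun l : ℤ => wH u v a b t (k, l) * cexp (zH u v (k, l) * σ)) = fun l : ℤ =>
        1 / (t : ℂ) * E * gb (t * v) ((b + I * σ / 2) / v) (k * u) l := by
      funext l
      unfold wH zH gb
      have e1 : cexp (2 * π * I * (((a * (k * v) + b * (l - k * u)) / v : ℝ) : ℂ)) *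
          ((Real.exp (-(2 * π * (((l : ℝ) - k * u) ^ 2 + ((k : ℝ) * v) ^ 2) /
            (2 * v * t))) : ℝ) : ℂ) *
          cexp (((-(π / v) : ℝ) : ℂ) * ((((l : ℝ) - k * u : ℝ) : ℂ) - (((k : ℝ) * v : ℝ) : ℂ) * I) * σ)
          = E *
          (cexp (2 * π * I * (((l : ℂ) - ((k * u : ℝ) : ℂ)) * (((b : ℂ) + I * σ / 2) / v))) *
            cexp (-(π * ((l : ℂ) - ((k * u : ℝ) : ℂ)) ^ 2 / ((t * v : ℝ) : ℂ)))) := by
        rw [hE, Complex.ofReal_exp, ← Complex.exp_add, ← Complex.exp_add, ← Complex.exp_add,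
          ← Complex.exp_add, ← Complex.exp_add]
        congr 1
        push_cast
        field_simp
        linear_combination ((k : ℂ) * u * t * σ - (l : ℂ) * t * σ) * hI
      simp only
      rw [mul_assoc (1 / (t : ℂ)) (_ * _) (cexp _), e1]
      ring
    rw [e]
    have e2 : E * (1 / r1) * (1 / r2 * S0) = 1 / (t : ℂ) * E * S0 := by
      rw [← hr12]
      field_simp
    rw [e2]
    exact h5
  rw [hG.tsum_eq, hH.tsum_eq]

theorem norm_gb_shift (s : ℝ) (x : ℝ) (d : ℂ) (f : ℝ) (l : ℤ) :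
    ‖gb s ((x : ℂ) + d) f l‖ = ‖gb s d f l‖ := by
  unfold gb
  have e1 : cexp (2 * π * I * (((l : ℂ) - f) * ((x : ℂ) + d))) =
      cexp (2 * π * I * (((((l : ℝ) - f) * x : ℝ) : ℂ))) * cexp (2 * π * I * (((l : ℂ) - f) * d)) := by
    rw [← Complex.exp_add]
    congr 1
    push_cast
    ring
  rw [e1, norm_mul, norm_mul, norm_e, one_mul, norm_mul]

theorem summ_G {u v a b t : ℝ} (hv : 0 < v) (ht : 0 < t) (σ : ℂ) :
    Summable (Function.uncurry (Gx u v a b t σ)) := by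
  have hs1 : 0 < t / v := by positivity
  have hs2 : 0 < t * v := by positivity
  obtain ⟨_, -, h3⟩ := pois hs2 ((b + I * σ / 2) / v) 0
  obtain ⟨_, k1, -⟩ := pois hs1 (σ / 2) 0
  have m1 := h3.summable.norm.mul_of_nonneg k1.summable.norm (fun _ => norm_nonneg _)
    (fun _ => norm_nonneg _)
  refine Summable.of_norm ((m1.mul_left ‖1 / (√(t / v) : ℂ)‖).congr ?_)
  rintro ⟨y, k⟩
  simp only [Function.uncurry_apply_pair]
  unfold Gx
  rw [norm_mul, norm_mul, norm_gb_shift]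
  ring

theorem summ_of {ι : Type*} (w z : ι → ℂ) (σ : ℂ)
    (h : ∀ r : ℝ, Summable (fun i => ‖w i‖ * Real.exp (r * ‖z i‖))) :
    Summable (fun i => w i * cexp (z i * σ)) := by
  refine Summable.of_norm_bounded (h ‖σ‖) fun i => ?_
  rw [norm_mul]
  refine mul_le_mul_of_nonneg_left ?_ (norm_nonneg _)
  rw [Complex.norm_exp]
  apply Real.exp_le_exp.2
  refine (Complex.re_le_norm _).trans ?_
  rw [norm_mul, mul_comm]

theorem pois2 {u v a b t : ℝ} (hv : 0 < v) (ht : 0 < t) (σ : ℂ) :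
    ∑' p, wF u v a b t p * cexp (zF u v a b t p * σ) =
      ∑' p, wH u v a b t p * cexp (zH u v p * σ) := by
  have hF := summ_of _ _ σ (hypF (u := u) (a := a) (b := b) hv ht)
  have hH := summ_of _ _ σ (hypH (u := u) (a := a) (b := b) hv ht)
  have hG := summ_G (u := u) (a := a) (b := b) hv ht σ
  rw [hF.tsum_prod, hH.tsum_prod]
  calc ∑' y : ℤ, ∑' x : ℤ, wF u v a b t (y, x) * cexp (zF u v a b t (y, x) * σ) =
        ∑' y : ℤ, ∑' k : ℤ, Gx u v a b t σ y k :=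
        tsum_congr fun y => step1 hv ht σ y
    _ = ∑' k : ℤ, ∑' y : ℤ, Gx u v a b t σ y k := hG.tsum_comm.symm
    _ = _ := tsum_congr fun k => step2 hv ht σ k

/-- POIS, weight `z ^ n` -/
theorem d_pois : Pool.Agent.W192.CM.D_POIS := by
  intro R ω hR n z0 t ht
  have hv := hR.im
  obtain ⟨e, he⟩ := exists_e1 hR
  obtain ⟨Y, hY⟩ := exists_tr hR
  obtain ⟨sF, sH, key⟩ := coefs (wF ω.re ω.im z0.re z0.im t) (zF ω.re ω.im z0.re z0.im t)
    (wH ω.re ω.im z0.re z0.im t) (zH ω.re ω.im) (hypF hv ht) (hypH hv ht) (pois2 hv ht) n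
  have hπ : (π : ℂ) ≠ 0 := by exact_mod_cast Real.pi_ne_zero
  have hv' : (ω.im : ℂ) ≠ 0 := by exact_mod_cast hv.ne'
  have ht' : (t : ℂ) ≠ 0 := by exact_mod_cast ht.ne'
  obtain ⟨A, hA⟩ : ∃ A : ℂ, A = ((-(π * t / ω.im) : ℝ) : ℂ) := ⟨_, rfl⟩
  obtain ⟨B, hB⟩ : ∃ B : ℂ, B = ((-(π / ω.im) : ℝ) : ℂ) := ⟨_, rfl⟩
  have hA0 : A ≠ 0 := by
    rw [hA]
    have : -(π * t / ω.im) ≠ 0 := by
      have : 0 < π * t / ω.im := by positivity
      linarith
    exact_mod_cast this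
  have hB0 : B ≠ 0 := by
    rw [hB]
    have : -(π / ω.im) ≠ 0 := by
      have : 0 < π / ω.im := by positivity
      linarith
    exact_mod_cast this
  have hAB : A = t * B := by
    rw [hA, hB]
    push_cast
    ring
  have eF : ∀ p, (fun α : R => ((α : ℂ) + z0) ^ n *
      (Real.exp (-(2 * Real.pi * t * Complex.normSq ((α : ℂ) + z0) / (2 * ω.im))) : ℂ)) (e p) =
      (1 / A ^ n) * (zF ω.re ω.im z0.re z0.im t p ^ n * wF ω.re ω.im z0.re z0.im t p) := by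
    intro p
    have h1 : ((e p : R) : ℂ) + z0 = (((p.2 : ℝ) + p.1 * ω.re + z0.re : ℝ) : ℂ) +
        (((p.1 : ℝ) * ω.im + z0.im : ℝ) : ℂ) * I := by
      rw [he]
      apply Complex.ext <;> simp
    simp only
    unfold wF zF
    rw [h1, Complex.normSq_add_mul_I, ← hA, mul_pow]
    field_simp
  have eH : ∀ p, (fun β : R => ((starRingEnd ℂ) (β : ℂ)) ^ n * ez ω (z0 * (β : ℂ)) *
      (Real.exp (-(2 * Real.pi * Complex.normSq (β : ℂ) / (2 * ω.im * t))) : ℂ))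
      (((shear Y).trans e) p) =
      (t / B ^ n) * (zH ω.re ω.im p ^ n * wH ω.re ω.im z0.re z0.im t p) := by
    intro p
    have h1 : ((((shear Y).trans e) p : R) : ℂ) = (((p.2 : ℝ) - p.1 * ω.re : ℝ) : ℂ) +
        (((p.1 : ℝ) * ω.im : ℝ) : ℂ) * I := by
      rw [Equiv.trans_apply, he]
      simp only [shear, Equiv.coe_fn_mk]
      apply Complex.ext
      · simp only [Complex.add_re, Complex.mul_re, Complex.intCast_re, Complex.intCast_im,
          Complex.ofReal_re, Complex.ofReal_im, Complex.I_re, Complex.I_im]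
        push_cast
        rw [← hY]
        ring
      · simp
    simp only
    unfold wH zH ez
    rw [h1, Complex.normSq_add_mul_I]
    have h2 : (starRingEnd ℂ) ((((p.2 : ℝ) - p.1 * ω.re : ℝ) : ℂ) +
        (((p.1 : ℝ) * ω.im : ℝ) : ℂ) * I) = (((p.2 : ℝ) - p.1 * ω.re : ℝ) : ℂ) -
        (((p.1 : ℝ) * ω.im : ℝ) : ℂ) * I := by
      rw [map_add, map_mul, Complex.conj_ofReal, Complex.conj_ofReal, Complex.conj_I]
      ring
    have h3 : (z0 * ((((p.2 : ℝ) - p.1 * ω.re : ℝ) : ℂ) +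
        (((p.1 : ℝ) * ω.im : ℝ) : ℂ) * I)).im =
        z0.re * (p.1 * ω.im) + z0.im * (p.2 - p.1 * ω.re) := by
      simp
    rw [h2, h3, ← hB]
    field_simp
    rw [mul_pow]
  refine ⟨?_, ?_, ?_⟩
  · rw [← e.summable_iff]
    exact (sF.mul_left _).congr fun p => (eF p).symm
  · rw [← ((shear Y).trans e).summable_iff]
    exact (sH.mul_left _).congr fun p => (eH p).symm
  · rw [← e.tsum_eq, ← ((shear Y).trans e).tsum_eq (fun β : R => ((starRingEnd ℂ) (β : ℂ)) ^ n *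
      ez ω (z0 * (β : ℂ)) *
      (Real.exp (-(2 * Real.pi * Complex.normSq (β : ℂ) / (2 * ω.im * t))) : ℂ))]
    rw [tsum_congr eF, tsum_congr eH, tsum_mul_left, tsum_mul_left, key, hAB]
    field_simp
    rw [mul_pow]
    ring

end Pool.Agent.W32.CMW
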